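import Mathlib
import Pool.Agent.H617R3.AP.Defs
import Pool.Agent.Run7.h254.KS.Select

/-!
# Progression-free subsets of weighted intervals and of sets which are almost injective modulo `p`
-/

set_option autoImplicit false

namespace Pool.Agent.Run7.h254.BS

open Finset Classical Pool.Agent.H617R3.AP

/-- `S` contains no arithmetic progression `a, a + d, ..., a + (k - 1) d` with `d ≠ 0`. -/
def Free (k : ℕ) (S : Finset ℤ) : Prop :=
  ∀ a d : ℤ, d ≠ 0 → ¬ ∀ i : ℕ, i < k → a + i * d ∈ S

/-- a sequence of elements of `B` with vanishing second differences is constant -/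
theorem ap_contra {k : ℕ} (hk : 3 ≤ k) {B : Finset ℕ} (hB : APFree k B) (c : ℕ → ℕ)
    (hcB : ∀ i < k, c i ∈ B) (hrel : ∀ i, i + 2 < k → (c i : ℤ) + c (i + 2) = 2 * c (i + 1))
    (hne : c 0 ≠ c 1) : False := by
  have hlin : ∀ i, i < k → (c i : ℤ) = c 0 + i * ((c 1 : ℤ) - c 0) :=
    Pool.Agent.Run7.h254.KS.lin (k := k) (fun i => (c i : ℤ)) hrel
  rcases lt_trichotomy ((c 1 : ℤ) - c 0) 0 with h | h | h
  · obtain ⟨d, hd⟩ : ∃ d : ℕ, (c 1 : ℤ) - c 0 = -(d : ℤ) := ⟨((c 1 : ℤ) - c 0).natAbs, by omega⟩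
    refine hB (c (k - 1)) d (by omega) (fun i hi => ?_)
    have h1 := hlin (k - 1) (by omega)
    have h2 := hlin (k - 1 - i) (by omega)
    rw [hd] at h1 h2
    have h3 : c (k - 1) + i * d = c (k - 1 - i) := by
      have e : ((k - 1 : ℕ) : ℤ) = ((k - 1 - i : ℕ) : ℤ) + i := by omega
      have h4 : ((c (k - 1) + i * d : ℕ) : ℤ) = (c (k - 1 - i) : ℕ) := by
        push_cast
        rw [h1, h2, e]
        ring
      exact_mod_cast h4
    rw [h3]
    exact hcB _ (by omega)
  · omega
  · obtain ⟨d, hd⟩ : ∃ d : ℕ, (c 1 : ℤ) - c 0 = (d : ℤ) := ⟨((c 1 : ℤ) - c 0).natAbs, by omega⟩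
    refine hB (c 0) d (by omega) (fun i hi => ?_)
    have h1 := hlin i hi
    rw [hd] at h1
    have h3 : c 0 + i * d = c i := by exact_mod_cast h1.symm
    rw [h3]
    exact hcB _ hi

/-- **Weighted intervals.** -/
theorem weights {k : ℕ} (hk : 3 ≤ k) (a : ℤ) (M L : ℕ) (hM : 1 ≤ M) (w : ℤ → ℝ) :
    ∃ S : Finset ℤ, S ⊆ Ico a (a + M) ∧ Free k S ∧
      (r k L : ℝ) * ∑ x ∈ Ico a (a + M), w x ≤ (M + L) * ∑ x ∈ S, w x := by
  obtain ⟨B, hB1, hB2, hB3⟩ := exists_opt (k := k) (by omega) L
  set I := Ico a (a + (M : ℤ)) with hI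
  set T : ℕ → Finset ℤ := fun t => I.filter (fun x => ∃ b ∈ B, (b : ℤ) = t - (x - a)) with hT
  -- double counting
  have hcount : ∑ t ∈ range (M + L), ∑ x ∈ T t, w x = (r k L : ℝ) * ∑ x ∈ I, w x := by
    have h1 : ∑ t ∈ range (M + L), ∑ x ∈ T t, w x =
        ∑ x ∈ I, ∑ t ∈ (range (M + L)).filter (fun t : ℕ => ∃ b ∈ B, (b : ℤ) = t - (x - a)), w x := by
      simp only [hT, sum_filter]
      rw [sum_comm]
    rw [h1, mul_sum]
    refine sum_congr rfl (fun x hx => ?_)
    rw [sum_const, nsmul_eq_mul]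
    congr 1
    rw [← hB3]
    norm_cast
    rw [hI, mem_Ico] at hx
    have h2 : (range (M + L)).filter (fun t : ℕ => ∃ b ∈ B, (b : ℤ) = t - (x - a)) =
        B.image (fun b => b + (x - a).toNat) := by
      ext t
      rw [mem_filter, mem_image, mem_range]
      constructor
      · rintro ⟨h3, b, hb, hb2⟩
        exact ⟨b, hb, by omega⟩
      · rintro ⟨b, hb, rfl⟩
        have h4 := mem_Icc.1 (hB1 hb)
        exact ⟨by omega, b, hb, by push_cast; omega⟩
    rw [h2, card_image_of_injective]
    intro b c h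
    simpa using h
  obtain ⟨t, ht, ht2⟩ : ∃ t ∈ range (M + L), ((r k L : ℝ) * ∑ x ∈ I, w x) / (M + L) ≤ ∑ x ∈ T t, w x := by
    apply exists_le_of_sum_le (s := range (M + L))
    · exact ⟨0, mem_range.2 (by omega)⟩
    · rw [hcount, sum_const, card_range, nsmul_eq_mul]
      have h0 : (0 : ℝ) < M + L := by
        have : (1 : ℝ) ≤ M := by exact_mod_cast hM
        have h2 : (0 : ℝ) ≤ L := Nat.cast_nonneg _
        linarith
      push_cast
      rw [mul_div_cancel₀ _ h0.ne']
  refine ⟨T t, filter_subset _ _, ?_, ?_⟩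
  · intro x d hd hmem
    have h1 : ∀ i, ∃ b : ℕ, i < k → b ∈ B ∧ (b : ℤ) = t - (x + i * d - a) := by
      intro i
      by_cases hi : i < k
      · obtain ⟨b, hb, hb2⟩ := (mem_filter.1 (hmem i hi)).2
        exact ⟨b, fun _ => ⟨hb, hb2⟩⟩
      · exact ⟨0, fun h => absurd h hi⟩
    choose c hc using h1
    refine ap_contra hk hB2 c (fun i hi => (hc i hi).1) (fun i hi => ?_) ?_
    · rw [(hc i (by omega)).2, (hc (i + 1) (by omega)).2, (hc (i + 2) hi).2]
      push_cast
      ring
    · intro h
      have h2 := (hc 0 (by omega)).2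
      have h3 := (hc 1 (by omega)).2
      rw [h] at h2
      rw [h2] at h3
      push_cast at h3
      apply hd
      linarith
  · have h0 : (0 : ℝ) < M + L := by
      have : (1 : ℝ) ≤ M := by exact_mod_cast hM
      have h2 : (0 : ℝ) ≤ L := Nat.cast_nonneg _
      linarith
    rw [div_le_iff₀ h0] at ht2
    linarith

/-- the ordered pairs of different elements of `A` which are congruent modulo `p` -/
noncomputable def coll (A : Finset ℤ) (p : ℕ) : Finset (ℤ × ℤ) :=
  A.offDiag.filter (fun q => (p : ℤ) ∣ q.1 - q.2)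

/-- **Sets which are almost injective modulo `p`.** -/
theorem residues {k : ℕ} (hk : 3 ≤ k) (A : Finset ℤ) (p L : ℕ) (hp : 1 ≤ p) (hL : 2 * L ≤ p) :
    ∃ S : Finset ℤ, S ⊆ A ∧ Free k S ∧ r k L * A.card ≤ p * S.card + r k L * (coll A p).card := by
  have : NeZero p := ⟨by omega⟩
  obtain ⟨B, hB1, hB2, hB3⟩ := exists_opt (k := k) (by omega) L
  set A' := A.filter (fun a => ∀ b ∈ A, b ≠ a → ¬ (p : ℤ) ∣ a - b) with hA'
  have hcard : A.card ≤ A'.card + (coll A p).card := by
    have h1 : A ⊆ A' ∪ (coll A p).image Prod.fst := by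
      intro a ha
      by_cases h : a ∈ A'
      · exact mem_union_left _ h
      · apply mem_union_right
        rw [hA', mem_filter] at h
        push Not at h
        obtain ⟨b, hb, hba, hdvd⟩ := h ha
        rw [mem_image]
        refine ⟨(a, b), ?_, rfl⟩
        unfold coll
        rw [mem_filter, mem_offDiag]
        exact ⟨⟨ha, hb, hba.symm⟩, hdvd⟩
    calc A.card ≤ (A' ∪ (coll A p).image Prod.fst).card := card_le_card h1
      _ ≤ A'.card + ((coll A p).image Prod.fst).card := card_union_le _ _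
      _ ≤ _ := Nat.add_le_add_left card_image_le _
  set T : ZMod p → Finset ℤ := fun t => A'.filter (fun a => ∃ b ∈ B, (b : ZMod p) = (a : ZMod p) + t) with hT
  have hBinj : ∀ b ∈ B, ∀ c ∈ B, (b : ZMod p) = (c : ZMod p) → b = c := by
    intro b hb c hc h
    have h1 := mem_Icc.1 (hB1 hb)
    have h2 := mem_Icc.1 (hB1 hc)
    have h3 := (ZMod.natCast_eq_natCast_iff' _ _ _).1 h
    rw [Nat.mod_eq_of_lt (by omega), Nat.mod_eq_of_lt (by omega)] at h3
    exact h3
  have hcount : ∑ t : ZMod p, (T t).card = A'.card * r k L := by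
    have h1 : ∑ t : ZMod p, (T t).card =
        ∑ a ∈ A', (univ.filter (fun t : ZMod p => ∃ b ∈ B, (b : ZMod p) = (a : ZMod p) + t)).card := by
      simp only [hT, card_filter]
      rw [sum_comm]
    rw [h1, ← smul_eq_mul, ← sum_const]
    refine sum_congr rfl (fun a ha => ?_)
    rw [← hB3]
    have h2 : univ.filter (fun t : ZMod p => ∃ b ∈ B, (b : ZMod p) = (a : ZMod p) + t) =
        B.image (fun b : ℕ => (b : ZMod p) - (a : ZMod p)) := by
      ext t
      rw [mem_filter, mem_image]
      constructor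
      · rintro ⟨-, b, hb, hb2⟩
        exact ⟨b, hb, by rw [hb2]; ring⟩
      · rintro ⟨b, hb, rfl⟩
        exact ⟨mem_univ _, b, hb, by ring⟩
    rw [h2, card_image_of_injOn]
    intro b hb c hc h
    simp only [sub_left_inj] at h
    exact hBinj b hb c hc h
  obtain ⟨t, -, ht⟩ : ∃ t ∈ (univ : Finset (ZMod p)), A'.card * r k L ≤ p * (T t).card := by
    by_contra hcon
    push Not at hcon
    have h1 : ∑ t : ZMod p, p * (T t).card < ∑ _t : ZMod p, A'.card * r k L :=
      sum_lt_sum_of_nonempty ⟨0, mem_univ _⟩ hcon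
    rw [← mul_sum, hcount, sum_const, card_univ, ZMod.card, smul_eq_mul] at h1
    exact lt_irrefl _ h1
  refine ⟨T t, (filter_subset _ _).trans (filter_subset _ _), ?_, ?_⟩
  · intro x d hd hmem
    have h1 : ∀ i, ∃ b : ℕ, i < k → b ∈ B ∧ (b : ZMod p) = ((x + i * d : ℤ) : ZMod p) + t := by
      intro i
      by_cases hi : i < k
      · obtain ⟨b, hb, hb2⟩ := (mem_filter.1 (hmem i hi)).2
        exact ⟨b, fun _ => ⟨hb, hb2⟩⟩
      · exact ⟨0, fun h => absurd h hi⟩
    choose c hc using h1
    refine ap_contra hk hB2 c (fun i hi => (hc i hi).1) (fun i hi => ?_) ?_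
    · have h2 := hc i (by omega)
      have h3 := hc (i + 1) (by omega)
      have h4 := hc (i + 2) hi
      have k2 := mem_Icc.1 (hB1 h2.1)
      have k3 := mem_Icc.1 (hB1 h3.1)
      have k4 := mem_Icc.1 (hB1 h4.1)
      have h5 : ((c i + c (i + 2) : ℕ) : ZMod p) = ((2 * c (i + 1) : ℕ) : ZMod p) := by
        push_cast
        rw [h2.2, h3.2, h4.2]
        push_cast
        ring
      have h6 : (p : ℤ) ∣ ((c i : ℤ) + c (i + 2)) - 2 * c (i + 1) := by
        rw [← ZMod.intCast_zmod_eq_zero_iff_dvd]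
        push_cast
        push_cast at h5
        rw [h5]
        ring
      have h7 := Int.eq_zero_of_abs_lt_dvd h6 (by
        rw [abs_lt]
        constructor <;> omega)
      linarith
    · intro h
      have h2 := (hc 0 (by omega)).2
      have h3 := (hc 1 (by omega)).2
      rw [h, h3] at h2
      have h4 : ((x + (1 : ℕ) * d : ℤ) : ZMod p) = ((x + (0 : ℕ) * d : ℤ) : ZMod p) := add_right_cancel h2
      have h5 : (p : ℤ) ∣ (x + (1 : ℕ) * d) - (x + (0 : ℕ) * d) := by
        rw [← ZMod.intCast_zmod_eq_zero_iff_dvd]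
        push_cast
        push_cast at h4
        rw [h4]
        ring
      have h6 := (mem_filter.1 (mem_filter.1 (hmem 1 (by omega))).1).2 (x + (0 : ℕ) * d)
        (mem_filter.1 (mem_filter.1 (hmem 0 (by omega))).1).1 (by
          push_cast
          intro h
          apply hd
          linarith)
      exact h6 h5
  · calc r k L * A.card ≤ r k L * (A'.card + (coll A p).card) := Nat.mul_le_mul_left _ hcard
      _ = A'.card * r k L + r k L * (coll A p).card := by ring
      _ ≤ _ := Nat.add_le_add_right ht _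

/-- **Restricted differences.** -/
theorem restricted {k : ℕ} (hk : 3 ≤ k) {N : ℕ} {A : Finset ℕ} (hA : A ⊆ Icc 1 N) (q l : ℕ) (hq : 1 ≤ q)
    (hfree : ∀ a d : ℕ, 1 ≤ d → q ∣ d → d ≤ q * l → ¬ ∀ i < k, a + i * d ∈ A) :
    l * A.card ≤ (N + q * l) * r k l := by
  set W : ℕ → Finset ℕ := fun s => (range l).filter (fun j => ∃ a ∈ A, a + q * j = s) with hW
  have hcount : ∑ s ∈ range (N + q * l), (W s).card = l * A.card := by
    have h1 : ∑ s ∈ range (N + q * l), (W s).card =
        ∑ j ∈ range l, ((range (N + q * l)).filter (fun s => ∃ a ∈ A, a + q * j = s)).card := by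
      simp only [hW, card_filter]
      rw [sum_comm]
    rw [h1]
    rw [sum_congr rfl (g := fun _ => A.card)]
    · rw [sum_const, card_range, smul_eq_mul]
    · intro j hj
      rw [mem_range] at hj
      have h2 : (range (N + q * l)).filter (fun s => ∃ a ∈ A, a + q * j = s) = A.image (fun a => a + q * j) := by
        ext s
        rw [mem_filter, mem_image, mem_range]
        constructor
        · rintro ⟨-, h⟩; exact h
        · rintro ⟨a, ha, rfl⟩
          have h3 := mem_Icc.1 (hA ha)
          refine ⟨?_, a, ha, rfl⟩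
          have h4 : q * (j + 1) ≤ q * l := Nat.mul_le_mul_left _ hj
          have h5 : q * (j + 1) = q * j + q := by ring
          omega
      rw [h2, card_image_of_injective]
      intro x y h
      simpa using h
  have hle : ∀ s ∈ range (N + q * l), (W s).card ≤ r k l := by
    intro s _
    set V := (W s).image (fun j => j + 1) with hV
    have h1 : V.card = (W s).card := card_image_of_injective _ (fun x y h => by simpa using h)
    rw [← h1]
    have hmem : ∀ j, j ∈ V → 1 ≤ j ∧ j ≤ l ∧ ∃ a ∈ A, a + q * (j - 1) = s := by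
      intro j hj
      obtain ⟨i, hi, rfl⟩ := mem_image.1 hj
      have h2 := mem_filter.1 hi
      have h3 := mem_range.1 h2.1
      exact ⟨by omega, by omega, by simpa using h2.2⟩
    apply card_le_r
    · intro j hj
      have h2 := hmem j hj
      rw [mem_Icc]; exact ⟨h2.1, h2.2.1⟩
    · intro x e he hall
      have h2 := fun i (hi : i < k) => hmem _ (hall i hi)
      obtain ⟨-, h3, a, ha, ha2⟩ := h2 (k - 1) (by omega)
      refine hfree a (q * e) (Nat.mul_pos hq he) (dvd_mul_right _ _) ?_ (fun i hi => ?_)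
      · refine Nat.mul_le_mul_left _ ?_
        have h4 : 1 * e ≤ (k - 1) * e := Nat.mul_le_mul_right _ (by omega)
        omega
      · obtain ⟨h4, -, b, hb, hb2⟩ := h2 (k - 1 - i) (by omega)
        have h5 : a + i * (q * e) = b := by
          have e1 : x + (k - 1) * e - 1 = x + (k - 1 - i) * e - 1 + i * e := by
            have e2 : (k - 1) * e = (k - 1 - i) * e + i * e := by
              rw [← Nat.add_mul]
              congr 1
              omega
            omega
          rw [e1, Nat.mul_add] at ha2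
          have e3 : i * (q * e) = q * (i * e) := by ring
          omega
        rw [h5]
        exact hb
  calc l * A.card = ∑ s ∈ range (N + q * l), (W s).card := hcount.symm
    _ ≤ ∑ _s ∈ range (N + q * l), r k l := sum_le_sum hle
    _ = _ := by rw [sum_const, card_range, smul_eq_mul]

end Pool.Agent.Run7.h254.BS
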