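import Mathlib
import Pool.Agent.Run7.h254.BS.Core

/-!
# A prime modulo which a set of integers is almost injective
-/

set_option autoImplicit false

namespace Pool.Agent.Run7.h254.BS

open Finset Classical

/-- the primes in `(P, 4 P]` -/
noncomputable def prs (P : ℕ) : Finset ℕ := (Ioc P (4 * P)).filter Nat.Prime

theorem theta_split (P : ℕ) :
    Chebyshev.theta ((4 * P : ℕ) : ℝ) = Chebyshev.theta (P : ℝ) + ∑ p ∈ prs P, Real.log p := by
  rw [Chebyshev.theta_eq_sum_Icc, Chebyshev.theta_eq_sum_Icc, Nat.floor_natCast, Nat.floor_natCast]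
  have h1 : (Icc 0 (4 * P)).filter Nat.Prime = (Icc 0 P).filter Nat.Prime ∪ prs P := by
    ext p
    unfold prs
    simp only [mem_filter, mem_union, mem_Icc, mem_Ioc]
    constructor
    · rintro ⟨h, hp⟩
      by_cases h2 : p ≤ P
      · left; exact ⟨⟨h.1, h2⟩, hp⟩
      · right; exact ⟨⟨by omega, h.2⟩, hp⟩
    · rintro (⟨h, hp⟩ | ⟨h, hp⟩)
      · exact ⟨⟨h.1, by omega⟩, hp⟩
      · exact ⟨⟨by omega, h.2⟩, hp⟩
  rw [h1, sum_union]
  rw [disjoint_left]
  intro p hp1 hp2
  unfold prs at hp2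
  simp only [mem_filter, mem_Icc, mem_Ioc] at hp1 hp2
  omega

/-- the logarithms of the primes in `(P, 4 P]` -/
theorem sum_log_ge : ∃ P₀ : ℕ, ∀ P : ℕ, P₀ ≤ P → (P : ℝ) ≤ ∑ p ∈ prs P, Real.log p := by
  have h1 : ∀ᶠ x : ℝ in Filter.atTop, Real.log (4 * x + 1) + 2 * √(4 * x) * Real.log (4 * x) ≤ x / 4 := by
    have a1 : (fun x : ℝ => Real.log (4 * x + 1)) =o[Filter.atTop] fun x : ℝ => x := by
      have e : Filter.Tendsto (fun x : ℝ => 4 * x + 1) Filter.atTop Filter.atTop :=
        Filter.tendsto_atTop_add_const_right _ _ (Filter.tendsto_id.const_mul_atTop (by norm_num))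
      have e2 := Real.isLittleO_log_id_atTop.comp_tendsto e
      refine e2.trans_isBigO ?_
      refine Asymptotics.IsBigO.of_bound 5 ?_
      filter_upwards [Filter.eventually_ge_atTop 1] with x hx
      simp only [Function.comp, id]
      rw [Real.norm_of_nonneg (by linarith), Real.norm_of_nonneg (by linarith)]
      linarith
    have a2 : (fun x : ℝ => 2 * √(4 * x) * Real.log (4 * x)) =o[Filter.atTop] fun x : ℝ => x := by
      have e : Filter.Tendsto (fun x : ℝ => 4 * x) Filter.atTop Filter.atTop :=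
        Filter.tendsto_id.const_mul_atTop (by norm_num)
      have e2 := (isLittleO_log_rpow_atTop (r := 1 / 4) (by norm_num)).comp_tendsto e
      have e3 : (fun x : ℝ => 2 * √(4 * x)) =O[Filter.atTop] fun x : ℝ => x ^ (1 / 2 : ℝ) := by
        refine Asymptotics.IsBigO.of_bound 4 ?_
        filter_upwards [Filter.eventually_ge_atTop 1] with x hx
        rw [Real.norm_of_nonneg (by positivity), Real.norm_of_nonneg (by positivity), Real.sqrt_eq_rpow,
          Real.mul_rpow (by norm_num) (by linarith)]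
        have : (4 : ℝ) ^ (1 / 2 : ℝ) = 2 := by
          rw [← Real.sqrt_eq_rpow, show (4 : ℝ) = 2 ^ 2 by norm_num, Real.sqrt_sq (by norm_num)]
        rw [this]
        ring_nf
        exact le_rfl
      have e4 := e3.mul_isLittleO e2
      refine e4.trans_isBigO ?_
      refine Asymptotics.IsBigO.of_bound 2 ?_
      filter_upwards [Filter.eventually_ge_atTop 1] with x hx
      simp only [Function.comp]
      have hx0 : (0 : ℝ) < x := by linarith
      rw [Real.norm_of_nonneg (by positivity), Real.norm_of_nonneg (by linarith)]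
      calc x ^ (1 / 2 : ℝ) * (4 * x) ^ (1 / 4 : ℝ) = 4 ^ (1 / 4 : ℝ) * (x ^ (1 / 2 : ℝ) * x ^ (1 / 4 : ℝ)) := by
            rw [Real.mul_rpow (by norm_num) hx0.le]; ring
        _ = 4 ^ (1 / 4 : ℝ) * x ^ (3 / 4 : ℝ) := by rw [← Real.rpow_add hx0]; norm_num
        _ ≤ 2 * x := by
            have b1 : (4 : ℝ) ^ (1 / 4 : ℝ) ≤ 4 ^ (1 / 2 : ℝ) :=
              Real.rpow_le_rpow_of_exponent_le (by norm_num) (by norm_num)
            have b2 : (4 : ℝ) ^ (1 / 2 : ℝ) = 2 := by
              rw [← Real.sqrt_eq_rpow, show (4 : ℝ) = 2 ^ 2 by norm_num, Real.sqrt_sq (by norm_num)]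
            have b3 : x ^ (3 / 4 : ℝ) ≤ x ^ (1 : ℝ) :=
              Real.rpow_le_rpow_of_exponent_le hx (by norm_num)
            rw [Real.rpow_one] at b3
            rw [b2] at b1
            exact mul_le_mul b1 b3 (by positivity) (by norm_num)
    have a3 := (a1.add a2).bound (show (0 : ℝ) < 1 / 4 by norm_num)
    filter_upwards [a3, Filter.eventually_ge_atTop 1] with x hx hx1
    rw [Real.norm_of_nonneg (r := x) (by linarith)] at hx
    have := (le_abs_self _).trans hx
    linarith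
  obtain ⟨X, hX⟩ := Filter.eventually_atTop.1 h1
  refine ⟨⌈X⌉₊, fun P hP => ?_⟩
  have h2 := hX P ((Nat.le_ceil X).trans (by exact_mod_cast hP))
  have h3 := theta_split P
  have h4 := Chebyshev.theta_ge (4 * P)
  have h5 := Chebyshev.theta_le_log4_mul_x (x := (P : ℝ)) (Nat.cast_nonneg _)
  have h6 : Real.log 4 = 2 * Real.log 2 := by
    rw [show (4 : ℝ) = 2 ^ 2 by norm_num, Real.log_pow]; norm_num
  rw [h6] at h5
  have h7 := Real.log_two_gt_d9
  push_cast at h3 h4
  have h8 : (0 : ℝ) ≤ P := Nat.cast_nonneg _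
  nlinarith

/-- the logarithms of the primes of a set dividing a nonzero integer -/
theorem sum_log_dvd (s : Finset ℕ) (hs : ∀ p ∈ s, p.Prime) (m : ℤ) (hm : m ≠ 0) :
    ∑ p ∈ s.filter (fun p : ℕ => (p : ℤ) ∣ m), Real.log p ≤ Real.log |(m : ℝ)| := by
  have h1 : (∏ p ∈ s.filter (fun p : ℕ => (p : ℤ) ∣ m), p) ∣ m.natAbs := by
    apply Finset.prod_primes_dvd
    · intro p hp
      exact (hs p (mem_filter.1 hp).1).prime
    · intro p hp
      exact Int.natCast_dvd.1 (mem_filter.1 hp).2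
  have h2 := Nat.le_of_dvd (Int.natAbs_pos.2 hm) h1
  rw [← Real.log_prod (fun p hp => by
    have := (hs p (mem_filter.1 hp).1).pos
    positivity)]
  apply Real.log_le_log
  · apply prod_pos
    intro p hp
    have := (hs p (mem_filter.1 hp).1).pos
    exact_mod_cast this
  · have h3 : ((∏ p ∈ s.filter (fun p : ℕ => (p : ℤ) ∣ m), p : ℕ) : ℝ) ≤ (m.natAbs : ℝ) := by exact_mod_cast h2
    rw [Nat.cast_natAbs, Int.cast_abs] at h3
    push_cast at h3
    exact h3

/-- **A good prime.** -/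
theorem good_prime : ∃ P₀ : ℕ, ∀ (P : ℕ) (A : Finset ℤ) (H : ℝ), P₀ ≤ P → 1 ≤ P → 0 ≤ H →
    (∀ a ∈ A, Real.log (2 * |(a : ℝ)| + 2) ≤ H) →
    ∃ p : ℕ, p.Prime ∧ P < p ∧ p ≤ 4 * P ∧ (P : ℝ) * (coll A p).card ≤ (A.card : ℝ) ^ 2 * H := by
  obtain ⟨P₀, hP₀⟩ := sum_log_ge
  refine ⟨P₀, fun P A H hP hP1 hH hA => ?_⟩
  by_contra hcon
  push Not at hcon
  have hsum := hP₀ P hP
  have hlogpos : ∀ p ∈ prs P, 0 < Real.log p := by
    intro p hp
    unfold prs at hp
    have h1 := (mem_filter.1 hp).2.one_lt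
    exact Real.log_pos (by exact_mod_cast h1)
  have hPr : (1 : ℝ) ≤ P := by exact_mod_cast hP1
  have hne : (prs P).Nonempty := by
    rw [nonempty_iff_ne_empty]
    intro h
    rw [h, sum_empty] at hsum
    linarith
  -- lower bound
  have h1 : ∑ p ∈ prs P, Real.log p * ((A.card : ℝ) ^ 2 * H) <
      ∑ p ∈ prs P, Real.log p * ((P : ℝ) * (coll A p).card) := by
    apply sum_lt_sum_of_nonempty hne
    intro p hp
    refine mul_lt_mul_of_pos_left ?_ (hlogpos p hp)
    unfold prs at hp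
    rw [mem_filter, mem_Ioc] at hp
    exact hcon p hp.2 hp.1.1 hp.1.2
  have h2 : ∑ p ∈ prs P, Real.log p * ((coll A p).card : ℝ) ≤ (A.card : ℝ) ^ 2 * H := by
    have e1 : ∑ p ∈ prs P, Real.log p * ((coll A p).card : ℝ) =
        ∑ q ∈ A.offDiag, ∑ p ∈ (prs P).filter (fun p : ℕ => (p : ℤ) ∣ q.1 - q.2), Real.log p := by
      unfold coll
      simp only [card_filter, sum_filter]
      rw [sum_comm]
      refine sum_congr rfl (fun p hp => ?_)
      push_cast
      rw [mul_sum]
      refine sum_congr rfl (fun q _ => ?_)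
      split_ifs <;> simp
    rw [e1]
    have e2 : ∀ q ∈ A.offDiag, ∑ p ∈ (prs P).filter (fun p : ℕ => (p : ℤ) ∣ q.1 - q.2), Real.log p ≤ H := by
      intro q hq
      rw [mem_offDiag] at hq
      obtain ⟨hq1, hq2, hq3⟩ := hq
      refine (sum_log_dvd (prs P) (fun p hp => (mem_filter.1 hp).2) _ (sub_ne_zero.2 hq3)).trans ?_
      have k1 := hA _ hq1
      have k2 := hA _ hq2
      push_cast
      rcases le_total |(q.1 : ℝ)| |(q.2 : ℝ)| with h | h
      · refine le_trans (Real.log_le_log ?_ ?_) k2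
        · rw [abs_pos, sub_ne_zero]; exact_mod_cast hq3
        · have := abs_sub (q.1 : ℝ) (q.2 : ℝ)
          linarith
      · refine le_trans (Real.log_le_log ?_ ?_) k1
        · rw [abs_pos, sub_ne_zero]; exact_mod_cast hq3
        · have := abs_sub (q.1 : ℝ) (q.2 : ℝ)
          linarith
    refine (sum_le_sum e2).trans ?_
    rw [sum_const, nsmul_eq_mul]
    refine mul_le_mul_of_nonneg_right ?_ hH
    rw [offDiag_card]
    have : A.card * A.card - A.card ≤ A.card ^ 2 := by rw [sq]; exact Nat.sub_le _ _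
    exact_mod_cast this
  have h3 : ∑ p ∈ prs P, Real.log p * ((P : ℝ) * (coll A p).card) =
      P * ∑ p ∈ prs P, Real.log p * ((coll A p).card : ℝ) := by
    rw [mul_sum]
    exact sum_congr rfl (fun p _ => by ring)
  rw [h3, ← sum_mul] at h1
  have h4 : (P : ℝ) * ((A.card : ℝ) ^ 2 * H) ≤ (∑ p ∈ prs P, Real.log p) * ((A.card : ℝ) ^ 2 * H) :=
    mul_le_mul_of_nonneg_right hsum (by positivity)
  have h5 : (P : ℝ) * ∑ p ∈ prs P, Real.log p * ((coll A p).card : ℝ) ≤ P * ((A.card : ℝ) ^ 2 * H) :=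
    mul_le_mul_of_nonneg_left h2 (by positivity)
  linarith

end Pool.Agent.Run7.h254.BS
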