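import Pool.Agent.H617R3.AP.Scale
import Pool.Agent.Run7.h254.BS.Prime

/-!
# The three parts of the theorem on bounded sets, for one `N`
-/

set_option autoImplicit false

namespace Pool.Agent.Run7.h254.BS

open Finset
open Pool.Agent.H617R3.AP (r)

theorem empty_free {k : ℕ} (hk : 3 ≤ k) : Free k ∅ := by
  intro x d _ h
  have := h 0 (by omega)
  simp at this

/-- weighted intervals -/
theorem part1 {k : ℕ} (hk : 3 ≤ k) {ε X : ℝ} {N : ℕ} (h0 : 0 < ε) (h1 : ε ≤ 1) (hN : 1 ≤ N) (hX : 16 ≤ X)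
    (hXε : 16 ≤ ε * X)
    (hlow : ∀ M : ℕ, (N : ℝ) ≤ M → (M : ℝ) ≤ N * X ^ 8 → (1 - ε / 4) * (M / N * r k N) ≤ r k M)
    (a : ℤ) (M : ℕ) (w : ℤ → ℝ) (hw : ∀ x, 0 ≤ w x) (hM : (M : ℝ) ≤ N * X) :
    ∃ S : Finset ℤ, S ⊆ Ico a (a + M) ∧ Free k S ∧
      (1 - ε) * ((r k N : ℝ) / N) * ∑ x ∈ Ico a (a + M), w x ≤ ∑ x ∈ S, w x := by
  rcases Nat.eq_zero_or_pos M with hM0 | hM0
  · refine ⟨∅, empty_subset _, empty_free hk, ?_⟩
    rw [hM0]; simp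
  have hNr : (1 : ℝ) ≤ N := by exact_mod_cast hN
  have hN0 : (0 : ℝ) < N := by linarith
  have hX0 : 0 < X := by linarith
  have hX2 : (256 : ℝ) ≤ X ^ 2 := by nlinarith
  set L := ⌊(N : ℝ) * X ^ 3⌋₊ with hL
  have hL1 : (L : ℝ) ≤ N * X ^ 3 := Nat.floor_le (by positivity)
  have hL2 : (N : ℝ) * X ^ 3 < L + 1 := Nat.lt_floor_add_one _
  have hNX : (1 : ℝ) ≤ N * X := by
    calc (1 : ℝ) = 1 * 1 := by ring
      _ ≤ N * X := mul_le_mul hNr (by linarith) (by norm_num) hN0.le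
  have hNNX : (N : ℝ) ≤ N * X := le_mul_of_one_le_right hN0.le (by linarith)
  have hX3 : (N : ℝ) * X * 256 ≤ N * X ^ 3 := by
    calc (N : ℝ) * X * 256 ≤ N * X * X ^ 2 := mul_le_mul_of_nonneg_left hX2 (by positivity)
      _ = _ := by ring
  have hL3 : (N : ℝ) * X * 255 ≤ L := by linarith
  have hL4 : (N : ℝ) * X ^ 3 ≤ 2 * L := by linarith
  obtain ⟨S, hS1, hS2, hS3⟩ := weights hk a M L hM0 w
  refine ⟨S, hS1, hS2, ?_⟩
  have h2 := hlow L (by linarith) (hL1.trans (mul_le_mul_of_nonneg_left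
    (pow_le_pow_right₀ (by linarith) (by norm_num)) hN0.le))
  set W := ∑ x ∈ Ico a (a + (M : ℤ)), w x with hW
  have hW0 : 0 ≤ W := sum_nonneg (fun x _ => hw x)
  have hL0 : (0 : ℝ) < L := by linarith
  have hM0r : (0 : ℝ) < M := by exact_mod_cast hM0
  have hML : (M : ℝ) ≤ ε / 4 * L := by
    have h4 : (N : ℝ) * X * (16 * 16) ≤ N * X * ((ε * X) * X) := by
      apply mul_le_mul_of_nonneg_left _ (by positivity)
      exact mul_le_mul hXε hX (by norm_num) (by linarith)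
    have h5 : ε * ((N : ℝ) * X ^ 3) ≤ ε * (2 * L) := mul_le_mul_of_nonneg_left hL4 h0.le
    have h6 : (N : ℝ) * X * ((ε * X) * X) = ε * ((N : ℝ) * X ^ 3) := by ring
    linarith
  have h5 : (1 - ε / 4) * ((L : ℝ) / N * r k N) * W ≤ (M + L) * ∑ x ∈ S, w x :=
    (mul_le_mul_of_nonneg_right h2 hW0).trans hS3
  have h7 : (1 - ε) * ((M : ℝ) + L) ≤ (1 - ε / 4) * L := by
    have b1 : 0 ≤ ε * M := by positivity
    have b2 : 0 ≤ ε * L := by positivity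
    have b3 : (1 - ε) * ((M : ℝ) + L) = M - ε * M + L - ε * L := by ring
    have b4 : (1 - ε / 4) * (L : ℝ) = L - ε * L / 4 := by ring
    have b5 : ε / 4 * (L : ℝ) = ε * L / 4 := by ring
    rw [b3, b4]
    rw [b5] at hML
    linarith
  have h6 : (1 - ε) * ((r k N : ℝ) / N) * W * (M + L) ≤ (1 - ε / 4) * ((L : ℝ) / N * r k N) * W := by
    calc (1 - ε) * ((r k N : ℝ) / N) * W * (M + L) = ((1 - ε) * ((M : ℝ) + L)) * ((r k N : ℝ) / N * W) := by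
          ring
      _ ≤ ((1 - ε / 4) * L) * ((r k N : ℝ) / N * W) := mul_le_mul_of_nonneg_right h7 (by positivity)
      _ = _ := by ring
  have h8 : (0 : ℝ) < M + L := by linarith
  have h9 : ((M : ℝ) + L) * ((1 - ε) * ((r k N : ℝ) / N) * W) ≤ (M + L) * ∑ x ∈ S, w x := by
    calc ((M : ℝ) + L) * ((1 - ε) * ((r k N : ℝ) / N) * W) = (1 - ε) * ((r k N : ℝ) / N) * W * (M + L) := by
          ring
      _ ≤ _ := h6.trans h5
  exact le_of_mul_le_mul_left h9 h8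

/-- bounded sets -/
theorem part2 {k : ℕ} (hk : 3 ≤ k) {P₀ : ℕ}
    (hP₀ : ∀ (P : ℕ) (A : Finset ℤ) (H : ℝ), P₀ ≤ P → 1 ≤ P → 0 ≤ H →
      (∀ a ∈ A, Real.log (2 * |(a : ℝ)| + 2) ≤ H) →
      ∃ p : ℕ, p.Prime ∧ P < p ∧ p ≤ 4 * P ∧ (P : ℝ) * (coll A p).card ≤ (A.card : ℝ) ^ 2 * H)
    {ε X : ℝ} {N : ℕ} (h0 : 0 < ε) (h1 : ε ≤ 1) (hN : 1 ≤ N) (hX : 16 ≤ X) (hXε : 16 ≤ ε * X)
    (hNP : (P₀ : ℝ) ≤ N)
    (hlow : ∀ M : ℕ, (N : ℝ) ≤ M → (M : ℝ) ≤ N * X ^ 8 → (1 - ε / 4) * (M / N * r k N) ≤ r k M)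
    (A : Finset ℤ) (hA : A.card = N) (hAb : ∀ a ∈ A, Real.log (2 * |(a : ℝ)| + 2) ≤ X) :
    ∃ S : Finset ℤ, S ⊆ A ∧ Free k S ∧ (1 / 2 - ε) * r k N ≤ S.card := by
  have hNr : (1 : ℝ) ≤ N := by exact_mod_cast hN
  have hN0 : (0 : ℝ) < N := by linarith
  have hX0 : 0 < X := by linarith
  have hX2 : (256 : ℝ) ≤ X ^ 2 := by nlinarith
  have hr0 : (0 : ℝ) < r k N := Pool.Agent.H617R3.AP.r_pos hk hN
  set P := ⌊(N : ℝ) * X ^ 2⌋₊ with hP
  have hP1 : (P : ℝ) ≤ N * X ^ 2 := Nat.floor_le (by positivity)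
  have hP2 : (N : ℝ) * X ^ 2 < P + 1 := Nat.lt_floor_add_one _
  have hNX2 : (N : ℝ) * 256 ≤ N * X ^ 2 := mul_le_mul_of_nonneg_left hX2 hN0.le
  have hP3 : (N : ℝ) * X ^ 2 ≤ 2 * P := by linarith
  have hPN : 128 * (N : ℝ) ≤ P := by linarith
  have hPP₀ : P₀ ≤ P := by
    have h2 : (P₀ : ℝ) ≤ P := by linarith
    exact_mod_cast h2
  have hP1' : 1 ≤ P := by
    have h2 : (1 : ℝ) ≤ P := by linarith
    exact_mod_cast h2
  obtain ⟨p, hp, hp1, hp2, hp3⟩ := hP₀ P A X hPP₀ hP1' hX0.le hAb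
  have hp1r : (P : ℝ) < p := by exact_mod_cast hp1
  have hp2r : (p : ℝ) ≤ 4 * P := by exact_mod_cast hp2
  set D := (coll A p).card with hD
  rw [hA] at hp3
  have hD0 : (0 : ℝ) ≤ D := Nat.cast_nonneg _
  have hDN : (D : ℝ) ≤ ε / 4 * N := by
    have h2 : (N : ℝ) * X ^ 2 * D ≤ 2 * P * D := mul_le_mul_of_nonneg_right hP3 hD0
    have h3 : (N * X) * (X * D) ≤ (N * X) * (2 * (N : ℝ)) := by
      calc (N * X) * (X * D) = (N : ℝ) * X ^ 2 * D := by ring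
        _ ≤ 2 * P * D := h2
        _ = 2 * (P * D) := by ring
        _ ≤ 2 * ((N : ℝ) ^ 2 * X) := mul_le_mul_of_nonneg_left hp3 (by norm_num)
        _ = _ := by ring
    have h4 : X * D ≤ 2 * (N : ℝ) := le_of_mul_le_mul_left h3 (by positivity)
    have h5 : 16 * (N : ℝ) ≤ ε * X * N := mul_le_mul_of_nonneg_right hXε hN0.le
    have h6 : X * (D : ℝ) ≤ X * (ε / 4 * N) := by
      have h7 : X * (ε / 4 * N) = ε * X * N / 4 := by ring
      rw [h7]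
      linarith
    exact le_of_mul_le_mul_left h6 hX0
  set L := p / 2 with hL
  have hL1 : 2 * L ≤ p := Nat.mul_div_le p 2
  have hL2 : p ≤ 2 * L + 1 := by omega
  have hL1r : 2 * (L : ℝ) ≤ p := by exact_mod_cast hL1
  have hL2r : (p : ℝ) ≤ 2 * L + 1 := by exact_mod_cast hL2
  obtain ⟨S, hS1, hS2, hS3⟩ := residues hk A p L hp.one_lt.le hL1
  refine ⟨S, hS1, hS2, ?_⟩
  have hS3r : (r k L : ℝ) * A.card ≤ p * S.card + r k L * D := by exact_mod_cast hS3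
  rw [hA] at hS3r
  have hX8 : (N : ℝ) * X ^ 2 * 2 ≤ N * X ^ 8 := by
    have h4 : X ^ 8 = X ^ 2 * (X ^ 2 * (X ^ 2 * X ^ 2)) := by ring
    have h6 : (256 : ℝ) * 256 ≤ X ^ 2 * X ^ 2 := mul_le_mul hX2 hX2 (by norm_num) (by positivity)
    have h7 : (256 : ℝ) * (256 * 256) ≤ X ^ 2 * (X ^ 2 * X ^ 2) :=
      mul_le_mul hX2 h6 (by norm_num) (by positivity)
    calc (N : ℝ) * X ^ 2 * 2 ≤ N * X ^ 2 * (X ^ 2 * (X ^ 2 * X ^ 2)) :=
          mul_le_mul_of_nonneg_left (by linarith) (by positivity)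
      _ = _ := by ring
  have h2 := hlow L (by linarith) (by linarith)
  have hp0 : (0 : ℝ) < p := by linarith
  have hpε : (1 : ℝ) ≤ ε / 4 * p := by
    have b1 : 1 * X ^ 2 ≤ (N : ℝ) * X ^ 2 := mul_le_mul_of_nonneg_right hNr (by positivity)
    have b2 : (16 : ℝ) * 16 ≤ (ε * X) * X := mul_le_mul hXε hX (by norm_num) (by linarith)
    have b3 : ε * X ^ 2 ≤ ε * (2 * p) := mul_le_mul_of_nonneg_left (by linarith) h0.le
    have b4 : (ε * X) * X = ε * X ^ 2 := by ring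
    have b5 : ε / 4 * p = ε * (2 * p) / 8 := by ring
    rw [b5]
    linarith
  have h3 : (r k L : ℝ) * ((1 - ε / 4) * N) ≤ p * S.card := by
    have h4 : (r k L : ℝ) * D ≤ r k L * (ε / 4 * N) := mul_le_mul_of_nonneg_left hDN (Nat.cast_nonneg _)
    have h5 : (r k L : ℝ) * ((1 - ε / 4) * N) = r k L * N - r k L * (ε / 4 * N) := by ring
    rw [h5]
    linarith
  have h4 : (1 - ε / 4) * ((L : ℝ) / N * r k N) * ((1 - ε / 4) * N) ≤ p * S.card := by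
    refine le_trans (mul_le_mul_of_nonneg_right h2 ?_) h3
    have : 0 ≤ 1 - ε / 4 := by linarith
    positivity
  have h5 : (1 - ε / 4) * ((L : ℝ) / N * r k N) * ((1 - ε / 4) * N) = (1 - ε / 4) ^ 2 * (L * r k N) := by
    field_simp
  rw [h5] at h4
  have h6 : (1 - ε / 4) / 2 * p ≤ L := by
    have b1 : (1 - ε / 4) / 2 * p = p / 2 - ε / 4 * p / 2 := by ring
    rw [b1]
    linarith
  have h7 : (p : ℝ) * ((1 / 2 - ε) * r k N) ≤ (1 - ε / 4) ^ 2 * (L * r k N) := by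
    have h8 : (1 - ε / 4) ^ 2 * ((1 - ε / 4) / 2 * p * r k N) ≤ (1 - ε / 4) ^ 2 * (L * r k N) :=
      mul_le_mul_of_nonneg_left (mul_le_mul_of_nonneg_right h6 hr0.le) (by positivity)
    refine le_trans ?_ h8
    have h9 : (1 / 2 - ε) ≤ (1 - ε / 4) ^ 2 * ((1 - ε / 4) / 2) := by
      have key : (1 - ε / 4) ^ 2 * ((1 - ε / 4) / 2) = 1 / 2 - 3 * ε / 8 + ε ^ 2 * (12 - ε) / 128 := by ring
      have b1 : 0 ≤ ε ^ 2 * (12 - ε) / 128 := by
        have : 0 ≤ 12 - ε := by linarith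
        positivity
      rw [key]
      linarith
    calc (p : ℝ) * ((1 / 2 - ε) * r k N) = (1 / 2 - ε) * (p * r k N) := by ring
      _ ≤ (1 - ε / 4) ^ 2 * ((1 - ε / 4) / 2) * (p * r k N) :=
          mul_le_mul_of_nonneg_right h9 (by positivity)
      _ = _ := by ring
  exact le_of_mul_le_mul_left (h7.trans h4) hp0

/-- restricted differences -/
theorem part3 {k : ℕ} (hk : 3 ≤ k) {ε X : ℝ} {N : ℕ} (h0 : 0 < ε) (h1 : ε ≤ 1) (hN : 1 ≤ N) (hX : 16 ≤ X)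
    (hXε : 16 ≤ ε * X) (hXN : X ^ 8 ≤ N)
    (hupp : ∀ M : ℕ, (N : ℝ) * (X ^ 8)⁻¹ ≤ M → M ≤ N → (r k M : ℝ) ≤ (1 + ε / 4) * (M / N * r k N))
    (A : Finset ℕ) (q : ℕ) (hA : A ⊆ Icc 1 N) (hq : 1 ≤ q) (hqX : (q : ℝ) ≤ X)
    (hfree : ∀ a d : ℕ, 1 ≤ d → q ∣ d → (d : ℝ) ≤ N * X⁻¹ → ¬ ∀ i < k, a + i * d ∈ A) :
    (A.card : ℝ) ≤ (1 + ε) * r k N := by
  have hNr : (1 : ℝ) ≤ N := by exact_mod_cast hN
  have hN0 : (0 : ℝ) < N := by linarith
  have hX0 : 0 < X := by linarith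
  have hX2 : (256 : ℝ) ≤ X ^ 2 := by nlinarith
  have hr0 : (0 : ℝ) < r k N := Pool.Agent.H617R3.AP.r_pos hk hN
  set l := ⌊(N : ℝ) * X⁻¹ / q⌋₊ with hl
  have hqr : (1 : ℝ) ≤ q := by exact_mod_cast hq
  have hq0 : (0 : ℝ) < q := by linarith
  have hXi0 : 0 < X⁻¹ := by positivity
  have hl1 : (l : ℝ) ≤ N * X⁻¹ / q := Nat.floor_le (by positivity)
  have hl2 : (N : ℝ) * X⁻¹ / q < l + 1 := Nat.lt_floor_add_one _
  have hql : (q : ℝ) * l ≤ N * X⁻¹ := by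
    rw [le_div_iff₀ hq0] at hl1
    linarith
  have hXi : X⁻¹ ≤ ε / 16 := by
    have b1 : X⁻¹ * 16 ≤ X⁻¹ * (ε * X) := mul_le_mul_of_nonneg_left hXε hXi0.le
    have b2 : X⁻¹ * (ε * X) = ε := by field_simp
    rw [b2] at b1
    linarith
  have hl3 : (N : ℝ) * (X⁻¹ * X⁻¹) ≤ l + 1 := by
    refine le_trans ?_ hl2.le
    rw [le_div_iff₀ hq0]
    have h3 : X⁻¹ * q ≤ 1 := by
      calc X⁻¹ * q ≤ X⁻¹ * X := mul_le_mul_of_nonneg_left hqX hXi0.le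
        _ = 1 := inv_mul_cancel₀ hX0.ne'
    calc (N : ℝ) * (X⁻¹ * X⁻¹) * q = N * X⁻¹ * (X⁻¹ * q) := by ring
      _ ≤ N * X⁻¹ * 1 := mul_le_mul_of_nonneg_left h3 (by positivity)
      _ = _ := by ring
  have hl4 : (X ^ 6 : ℝ) ≤ N * (X⁻¹ * X⁻¹) := by
    calc (X ^ 6 : ℝ) = X ^ 8 * (X⁻¹ * X⁻¹) := by field_simp
      _ ≤ _ := mul_le_mul_of_nonneg_right hXN (by positivity)
  have hX6 : (256 : ℝ) ≤ X ^ 6 := by
    have h4 : X ^ 6 = X ^ 2 * (X ^ 2 * X ^ 2) := by ring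
    have h6 : (256 : ℝ) * 256 ≤ X ^ 2 * X ^ 2 := mul_le_mul hX2 hX2 (by norm_num) (by positivity)
    have h7 : (256 : ℝ) * (256 * 256) ≤ X ^ 2 * (X ^ 2 * X ^ 2) :=
      mul_le_mul hX2 h6 (by norm_num) (by positivity)
    rw [h4]
    linarith
  have hl0 : (0 : ℝ) < l := by linarith
  have h2 := hupp l (by
    have h3 : (X ^ 8)⁻¹ ≤ X⁻¹ * X⁻¹ * (1 / 2) := by
      have h4 : (X ^ 8)⁻¹ = X⁻¹ * X⁻¹ * (X ^ 6)⁻¹ := by field_simp
      rw [h4]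
      apply mul_le_mul_of_nonneg_left _ (by positivity)
      rw [inv_eq_one_div]
      exact one_div_le_one_div_of_le (by norm_num) (by linarith)
    calc (N : ℝ) * (X ^ 8)⁻¹ ≤ N * (X⁻¹ * X⁻¹ * (1 / 2)) := mul_le_mul_of_nonneg_left h3 (by positivity)
      _ = N * (X⁻¹ * X⁻¹) / 2 := by ring
      _ ≤ l := by linarith) (by
    have h3 : (l : ℝ) ≤ N := by
      have h4 : (l : ℝ) ≤ q * l := le_mul_of_one_le_left hl0.le hqr
      have h5 : (N : ℝ) * X⁻¹ ≤ N * 1 := mul_le_mul_of_nonneg_left (by linarith) (by positivity)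
      linarith
    exact_mod_cast h3)
  have h3 := restricted hk hA q l hq (by
    intro a d hd hqd hdl
    refine hfree a d hd hqd ?_
    have h4 : (d : ℝ) ≤ q * l := by exact_mod_cast hdl
    linarith)
  have h3r : (l : ℝ) * A.card ≤ (N + q * l) * r k l := by exact_mod_cast h3
  have h5 : (1 + X⁻¹) * (1 + ε / 4) ≤ 1 + ε := by
    have b1 : (1 + X⁻¹) * (1 + ε / 4) ≤ (1 + ε / 16) * (1 + ε / 4) :=
      mul_le_mul_of_nonneg_right (by linarith) (by linarith)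
    have b2 : ε * ε ≤ ε * 1 := mul_le_mul_of_nonneg_left h1 h0.le
    have b3 : (1 + ε / 16) * (1 + ε / 4) = 1 + 5 * ε / 16 + ε * ε / 64 := by ring
    rw [b3] at b1
    linarith
  have h4 : (l : ℝ) * A.card ≤ l * ((1 + ε) * r k N) := by
    calc (l : ℝ) * A.card ≤ (N + q * l) * r k l := h3r
      _ ≤ (N + N * X⁻¹) * ((1 + ε / 4) * (l / N * r k N)) := by
          apply mul_le_mul (by linarith) h2 (Nat.cast_nonneg _) (by positivity)
      _ = l * (((1 + X⁻¹) * (1 + ε / 4)) * r k N) := by field_simp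
      _ ≤ l * ((1 + ε) * r k N) := by
          apply mul_le_mul_of_nonneg_left _ hl0.le
          exact mul_le_mul_of_nonneg_right h5 hr0.le
  exact le_of_mul_le_mul_left h4 hl0

end Pool.Agent.Run7.h254.BS
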